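import Mathlib

/-! Auxiliary facts on class groups and invertible fractional ideals. -/

set_option autoImplicit false

open scoped nonZeroDivisors

namespace Pool.Agent.W538.GK

open FractionalIdeal IsDedekindDomain

section general

variable {R K : Type*} [CommRing R] [IsDomain R] [Field K] [Algebra R K] [IsFractionRing R K]

theorem mem_rE {S L : Type*} [CommRing S] [IsDomain S] [Field L] [Algebra S L]
    [IsFractionRing S L] (f : R ≃+* S) (I : FractionalIdeal R⁰ K) (x : L) :
    x ∈ FractionalIdeal.ringEquivOfRingEquiv K L f I ↔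
      ∃ y ∈ I, IsFractionRing.ringEquivOfRingEquiv f y = x := by
  constructor
  · intro h
    obtain ⟨y, hy, hyx⟩ := h
    exact ⟨y, hy, hyx⟩
  · rintro ⟨y, hy, hyx⟩
    exact ⟨y, hy, hyx⟩

theorem canonicalEquiv_eq {L : Type*} [Field L] [Algebra R L] [IsFractionRing R L]
    (I : FractionalIdeal R⁰ K) :
    FractionalIdeal.canonicalEquiv R⁰ K L I =
      FractionalIdeal.ringEquivOfRingEquiv K L (RingEquiv.refl R) I := by
  ext x
  rw [mem_rE, FractionalIdeal.mem_canonicalEquiv_apply]
  constructor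
  · rintro ⟨y, hy, h⟩
    refine ⟨y, hy, ?_⟩
    rw [← h]
    rfl
  · rintro ⟨y, hy, h⟩
    refine ⟨y, hy, ?_⟩
    rw [← h]
    rfl

theorem mulEquiv_mk {S L : Type*} [CommRing S] [IsDomain S] [Field L] [Algebra S L]
    [IsFractionRing S L] (g : R ≃+* S) (I : (FractionalIdeal R⁰ K)ˣ) (J : (FractionalIdeal S⁰ L)ˣ)
    (h : (J : FractionalIdeal S⁰ L) = FractionalIdeal.ringEquivOfRingEquiv K L g I) :
    ClassGroup.mulEquiv g (ClassGroup.mk K I) = ClassGroup.mk L J := by
  apply (ClassGroup.equiv (R := S) (FractionRing S)).injective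
  unfold ClassGroup.mulEquiv
  rw [MulEquiv.trans_apply, MulEquiv.trans_apply, MulEquiv.apply_symm_apply, ClassGroup.equiv_mk,
    ClassGroup.equiv_mk, QuotientGroup.congr_mk']
  congr 1
  apply Units.ext
  rw [Units.coe_mapEquiv, Units.coe_mapEquiv, Units.coe_mapEquiv]
  change FractionalIdeal.ringEquivOfRingEquiv (FractionRing R) (FractionRing S) g
    (FractionalIdeal.canonicalEquiv R⁰ K (FractionRing R) I) =
    FractionalIdeal.canonicalEquiv S⁰ L (FractionRing S) J
  rw [canonicalEquiv_eq, canonicalEquiv_eq, h, ← FractionalIdeal.ringEquivOfRingEquiv_trans_apply,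
    ← FractionalIdeal.ringEquivOfRingEquiv_trans_apply]
  rfl

theorem mk_principal (x : Kˣ) : ClassGroup.mk K (toPrincipalIdeal R K x) = 1 := by
  rw [ClassGroup.mk_eq_one_iff, coe_toPrincipalIdeal, FractionalIdeal.coe_spanSingleton]
  exact ⟨⟨x, rfl⟩⟩

theorem mk_one_iff (I : (FractionalIdeal R⁰ K)ˣ) :
    ClassGroup.mk K I = 1 ↔ ∃ x : Kˣ, toPrincipalIdeal R K x = I := by
  constructor
  · intro h
    rw [ClassGroup.mk_eq_one_iff] at h
    obtain ⟨x, hx⟩ := @Submodule.IsPrincipal.principal _ _ _ _ _ _ h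
    have hx' : (I : FractionalIdeal R⁰ K) = spanSingleton R⁰ x := by
      apply Subtype.coe_injective
      simp only [FractionalIdeal.val_eq_coe, hx, coe_spanSingleton]
    refine ⟨Units.mk0 x ?_, ?_⟩
    · intro x_eq
      apply Units.ne_zero I
      simp [hx', x_eq]
    · simp [hx']
  · rintro ⟨x, rfl⟩
    exact mk_principal x

theorem unit_of_principal (x : Kˣ) (h : toPrincipalIdeal R K x = 1) :
    (∃ a : R, algebraMap R K a = x) ∧ ∃ a : R, algebraMap R K a = (x : K)⁻¹ := by
  have key : ∀ y : Kˣ, toPrincipalIdeal R K y = 1 → ∃ a : R, algebraMap R K a = y := by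
    intro y hy
    rw [toPrincipalIdeal_eq_iff] at hy
    have h1 : (y : K) ∈ (1 : FractionalIdeal R⁰ K) := by
      have : (y : K) ∈ spanSingleton R⁰ (y : K) := mem_spanSingleton_self _ _
      rw [hy] at this
      exact this
    obtain ⟨a, ha⟩ := (FractionalIdeal.mem_one_iff R⁰).1 h1
    exact ⟨a, ha⟩
  refine ⟨key x h, ?_⟩
  obtain ⟨a, ha⟩ := key x⁻¹ (by rw [map_inv, h, inv_one])
  exact ⟨a, by rw [ha, Units.val_inv_eq_inv_val]⟩

variable [IsDedekindDomain R]

theorem pow_eq (p : ℕ) (hp : 0 < p) (l : R) (hl : l ≠ 0) (hpr : (Ideal.span {l}).IsPrime)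
    (L : (FractionalIdeal R⁰ K)ˣ)
    (hL : (L : FractionalIdeal R⁰ K) = spanSingleton R⁰ (algebraMap R K l))
    (J : (FractionalIdeal R⁰ K)ˣ) (t : ℤ) (h : J ^ p = L ^ t) : ∃ s : ℤ, J = L ^ s := by
  let v : HeightOneSpectrum R := ⟨Ideal.span {l}, hpr, by simpa using hl⟩
  have hLv : (L : FractionalIdeal R⁰ K) = (v.asIdeal : FractionalIdeal R⁰ K) := by
    rw [hL, ← coeIdeal_span_singleton]
  have h1 : count K v (L : FractionalIdeal R⁰ K) = 1 := by rw [hLv, count_self]
  have hc : ∀ w : HeightOneSpectrum R, (p : ℤ) * count K w (J : FractionalIdeal R⁰ K) =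
      t * count K w (L : FractionalIdeal R⁰ K) := by
    intro w
    rw [← count_pow, ← count_zpow]
    congr 1
    rw [← Units.val_pow_eq_pow_val, h, Units.val_zpow_eq_zpow_val]
  have ht := hc v
  rw [h1, mul_one] at ht
  refine ⟨count K v (J : FractionalIdeal R⁰ K), ?_⟩
  apply Units.ext
  rw [Units.val_zpow_eq_zpow_val]
  have hJ0 : (J : FractionalIdeal R⁰ K) ≠ 0 := J.ne_zero
  have hL0 : (L : FractionalIdeal R⁰ K) ≠ 0 := L.ne_zero
  refine (finprod_heightOneSpectrum_factorization' (K := K) hJ0).symm.trans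
    (Eq.trans ?_ (finprod_heightOneSpectrum_factorization' (K := K)
      (zpow_ne_zero (count K v (J : FractionalIdeal R⁰ K)) hL0)))
  apply finprod_congr
  intro w
  congr 1
  rw [count_zpow]
  have hw := hc w
  rw [← ht] at hw
  have hp' : (p : ℤ) ≠ 0 := by exact_mod_cast hp.ne'
  have : (p : ℤ) * count K w (J : FractionalIdeal R⁰ K) =
      p * (count K v (J : FractionalIdeal R⁰ K) * count K w (L : FractionalIdeal R⁰ K)) := by
    rw [hw]; ring
  exact mul_left_cancel₀ hp' this

end general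

end Pool.Agent.W538.GK
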