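import Pool.Agent.W345.GK.Cl2
import Pool.Agent.W538.GK.Clm0

/-! Project GK: the class map. -/

set_option autoImplicit false

open Polynomial
open scoped nonZeroDivisors

namespace Pool.Agent.W538.GK

open Pool.Agent.W345.GK

section

variable {k Fc : Type} [Field k] [Field Fc] [Algebra k[X] Fc]

theorem OP_add {P : k[X]} {y z : Fc} (hy : OP P y) (hz : OP P z) : OP P (y + z) := by
  obtain ⟨n, hn⟩ := hy
  obtain ⟨m, hm⟩ := hz
  refine ⟨n + m, ?_⟩
  have hP : IsIntegral k[X] (algebraMap k[X] Fc P) := isIntegral_algebraMap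
  have h1 : (algebraMap k[X] Fc P) ^ (n + m) * (y + z) =
      (algebraMap k[X] Fc P) ^ m * ((algebraMap k[X] Fc P) ^ n * y) +
      (algebraMap k[X] Fc P) ^ n * ((algebraMap k[X] Fc P) ^ m * z) := by ring
  rw [h1]
  exact ((hP.pow m).mul hn).add ((hP.pow n).mul hm)

theorem OP_map {P : k[X]} {y : Fc} (σ : Fc ≃ₐ[k[X]] Fc) (hy : OP P y) : OP P (σ y) := by
  obtain ⟨n, hn⟩ := hy
  refine ⟨n, ?_⟩
  have h1 : (algebraMap k[X] Fc P) ^ n * σ y = σ ((algebraMap k[X] Fc P) ^ n * y) := by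
    rw [map_mul, map_pow, AlgEquiv.commutes]
  rw [h1]
  exact hn.map (σ : Fc →ₐ[k[X]] Fc)

variable [IsDedekindDomain (integralClosure k[X] Fc)] [IsFractionRing (integralClosure k[X] Fc) Fc]

theorem fr_eq (σ : Fc ≃ₐ[k[X]] Fc) (x : Fc) :
    IsFractionRing.ringEquivOfRingEquiv (K := Fc) (L := Fc)
      (σ.mapIntegralClosure.toRingEquiv : integralClosure k[X] Fc ≃+* integralClosure k[X] Fc) x =
      σ x := by
  obtain ⟨a, b, -, rfl⟩ := IsFractionRing.div_surjective (A := integralClosure k[X] Fc) x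
  rw [map_div₀, map_div₀, IsFractionRing.ringEquivOfRingEquiv_algebraMap,
    IsFractionRing.ringEquivOfRingEquiv_algebraMap]
  rfl

/-- the map induced on invertible fractional ideals -/
noncomputable def MM (σ : Fc ≃ₐ[k[X]] Fc) :
    (FractionalIdeal (integralClosure k[X] Fc)⁰ Fc)ˣ ≃*
      (FractionalIdeal (integralClosure k[X] Fc)⁰ Fc)ˣ :=
  Units.mapEquiv (FractionalIdeal.ringEquivOfRingEquiv Fc Fc
    (σ.mapIntegralClosure.toRingEquiv :
      integralClosure k[X] Fc ≃+* integralClosure k[X] Fc)).toMulEquiv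

theorem MM_coe (σ : Fc ≃ₐ[k[X]] Fc) (I : (FractionalIdeal (integralClosure k[X] Fc)⁰ Fc)ˣ) :
    (MM σ I : FractionalIdeal (integralClosure k[X] Fc)⁰ Fc) =
      FractionalIdeal.ringEquivOfRingEquiv Fc Fc (σ.mapIntegralClosure.toRingEquiv :
      integralClosure k[X] Fc ≃+* integralClosure k[X] Fc) I := rfl

theorem MM_prin (σ : Fc ≃ₐ[k[X]] Fc) (x : Fcˣ) :
    MM σ (toPrincipalIdeal (integralClosure k[X] Fc) Fc x) =
      toPrincipalIdeal (integralClosure k[X] Fc) Fc (Units.map ((σ : Fc ≃ₐ[k[X]] Fc) : Fc →* Fc) x) := by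
  apply Units.ext
  rw [MM_coe, coe_toPrincipalIdeal, coe_toPrincipalIdeal,
    FractionalIdeal.ringEquivOfRingEquiv_spanSingleton, fr_eq]
  rfl

theorem clMap_mk (σ : Fc ≃ₐ[k[X]] Fc) (I : (FractionalIdeal (integralClosure k[X] Fc)⁰ Fc)ˣ) :
    clMap σ (Additive.ofMul (ClassGroup.mk Fc I)) =
      Additive.ofMul (ClassGroup.mk Fc (MM σ I)) := by
  have h := mulEquiv_mk (σ.mapIntegralClosure.toRingEquiv :
      integralClosure k[X] Fc ≃+* integralClosure k[X] Fc) I (MM σ I) (MM_coe σ I)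
  rw [← h]
  rfl

theorem prin_one (x : Fcˣ) (h1 : IsIntegral k[X] (x : Fc)) (h2 : IsIntegral k[X] ((x : Fc)⁻¹)) :
    toPrincipalIdeal (integralClosure k[X] Fc) Fc x = 1 := by
  rw [toPrincipalIdeal_eq_iff, Units.val_one]
  apply le_antisymm
  · rw [FractionalIdeal.spanSingleton_le_iff_mem, FractionalIdeal.mem_one_iff]
    exact ⟨⟨x, h1⟩, rfl⟩
  · rw [← FractionalIdeal.spanSingleton_one, FractionalIdeal.spanSingleton_le_iff_mem,
      FractionalIdeal.mem_spanSingleton]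
    refine ⟨⟨(x : Fc)⁻¹, h2⟩, ?_⟩
    rw [Algebra.smul_def]
    change (x : Fc)⁻¹ * x = 1
    exact inv_mul_cancel₀ x.ne_zero

end

theorem clm : S_LAM → S_LAU → S_IDL → S_CLM := by
  intro hLAM hLAU hIDL k F Fc _ _ _ _ _ _ _ _ _ _ _ _ p _ _ P c ι D hPm hPi hfin hDer
  classical
  have h1P : ¬ P ∣ (1 : k[X]) := fun h => hPi.not_isUnit (isUnit_of_dvd_one h)
  obtain ⟨-, hlint, hlne, -, -⟩ := hLAU k Fc P c hPm hPi 1 h1P
  set l : Fcˣ := Units.mk0 (c.lam 1) hlne with hl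
  have hlv : (l : Fc) = c.lam 1 := rfl
  obtain ⟨hpr, hl0, -⟩ := hLAM k Fc P c hPm hPi hfin ⟨c.lam 1, hlint⟩ rfl
  set Λ := toPrincipalIdeal (integralClosure k[X] Fc) Fc l with hΛ
  have hp0 : 0 < p := (Fact.out : p.Prime).pos
  have hidl : ∀ f : Fcˣ, OP P (D (f : Fc) / f) →
      ∃ (I : (FractionalIdeal (integralClosure k[X] Fc)⁰ Fc)ˣ) (r : ℤ),
        toPrincipalIdeal (integralClosure k[X] Fc) Fc f = I ^ p * Λ ^ r := fun f hf =>
    hIDL k F Fc p P c ι D hPm hPi hfin hDer f l hf hlv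
  have hpow : ∀ (J : (FractionalIdeal (integralClosure k[X] Fc)⁰ Fc)ˣ) (t : ℤ),
      J ^ p = Λ ^ t → ClassGroup.mk Fc J = 1 := by
    intro J t h
    obtain ⟨s, hs⟩ := pow_eq (K := Fc) p hp0 _ hl0 hpr Λ (by rw [hΛ, coe_toPrincipalIdeal]; rfl)
      J t h
    rw [hs, map_zpow, hΛ, mk_principal, one_zpow]
  have htor : ∀ (f : Fcˣ) (I : (FractionalIdeal (integralClosure k[X] Fc)⁰ Fc)ˣ) (r : ℤ),
      toPrincipalIdeal (integralClosure k[X] Fc) Fc f = I ^ p * Λ ^ r →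
      p • (Additive.ofMul (ClassGroup.mk Fc I) : Cl k Fc) = 0 := by
    intro f I r h
    have h1 : ClassGroup.mk Fc I ^ p = 1 := by
      have h2 := congrArg (ClassGroup.mk Fc) h
      rw [mk_principal, map_mul, map_pow, map_zpow, hΛ, mk_principal, one_zpow, mul_one] at h2
      exact h2.symm
    rw [← ofMul_pow, h1, ofMul_one]
  have hind : ∀ (I J : (FractionalIdeal (integralClosure k[X] Fc)⁰ Fc)ˣ) (r s : ℤ),
      I ^ p * Λ ^ r = J ^ p * Λ ^ s → ClassGroup.mk Fc J = ClassGroup.mk Fc I := by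
    intro I J r s h
    have h3 : (J * I⁻¹) ^ p = Λ ^ (r - s) := by
      rw [mul_pow, inv_pow, zpow_sub, mul_inv_eq_iff_eq_mul]
      rw [eq_comm, mul_comm, ← mul_assoc, h, mul_assoc, mul_inv_cancel, mul_one]
    have h4 := hpow _ _ h3
    rwa [map_mul, map_inv, mul_inv_eq_one] at h4
  set cl : Fcˣ → tors p (Cl k Fc) := fun f =>
    if h : OP P (D (f : Fc) / f) then
      ⟨Additive.ofMul (ClassGroup.mk Fc (hidl f h).choose),
        htor f _ _ (hidl f h).choose_spec.choose_spec⟩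
    else 0 with hcl
  have key : ∀ (f : Fcˣ) (_ : OP P (D (f : Fc) / f))
      (I : (FractionalIdeal (integralClosure k[X] Fc)⁰ Fc)ˣ) (r : ℤ),
      toPrincipalIdeal (integralClosure k[X] Fc) Fc f = I ^ p * Λ ^ r →
      (cl f : Cl k Fc) = Additive.ofMul (ClassGroup.mk Fc I) := by
    intro f hf I r h
    have h1 : (cl f : Cl k Fc) = Additive.ofMul (ClassGroup.mk Fc (hidl f hf).choose) := by
      rw [hcl]
      simp only [dif_pos hf]
    rw [h1]
    rw [hind _ _ _ _ (h.symm.trans (hidl f hf).choose_spec.choose_spec)]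
  refine ⟨cl, ?_, ?_, ?_⟩
  · intro f g hf hg
    obtain ⟨I, r, hI⟩ := hidl f hf
    obtain ⟨J, s, hJ⟩ := hidl g hg
    have hfg : OP P (D ((f * g : Fcˣ) : Fc) / ((f * g : Fcˣ) : Fc)) := by
      have h1 : D ((f * g : Fcˣ) : Fc) / ((f * g : Fcˣ) : Fc) = D (f : Fc) / f + D (g : Fc) / g := by
        rw [Units.val_mul, hDer.mul]
        field_simp
        ring
      rw [h1]
      exact OP_add hf hg
    apply Subtype.ext
    rw [key (f * g) hfg (I * J) (r + s) (by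
      rw [map_mul, hI, hJ, mul_pow, zpow_add]
      exact mul_mul_mul_comm _ _ _ _), AddSubgroup.coe_add, key f hf I r hI, key g hg J s hJ,
      map_mul, ofMul_mul]
  · intro f hf h0
    obtain ⟨I, r, hI⟩ := hidl f hf
    have h1 : ClassGroup.mk Fc I = 1 := by
      have h2 := key f hf I r hI
      rw [h0] at h2
      exact (Additive.ofMul.injective (h2.symm.trans ofMul_one.symm : _))
    obtain ⟨g, hg⟩ := (mk_one_iff I).1 h1
    have h3 : toPrincipalIdeal (integralClosure k[X] Fc) Fc (f * (g ^ p * l ^ r)⁻¹) = 1 := by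
      rw [map_mul, map_inv, map_mul, map_pow, map_zpow, hI, hg, ← hΛ, mul_inv_cancel]
    obtain ⟨⟨a, ha⟩, ⟨b, hb⟩⟩ := unit_of_principal _ h3
    refine ⟨g, f * (g ^ p * l ^ r)⁻¹, r, ?_, ?_, ?_⟩
    · rw [← ha]; exact a.2
    · rw [← hb]; exact b.2
    · rw [Units.val_mul, Units.val_inv_eq_inv_val, Units.val_mul, Units.val_pow_eq_pow_val,
        Units.val_zpow_eq_zpow_val, hlv]
      have h5 : (g : Fc) ^ p * c.lam 1 ^ r ≠ 0 :=
        mul_ne_zero (pow_ne_zero _ g.ne_zero) (zpow_ne_zero _ hlne)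
      field_simp
  · intro a f ha hf
    obtain ⟨I, r, hI⟩ := hidl f hf
    have hσf : OP P (D ((Units.map ((c.sg a : Fc ≃ₐ[k[X]] Fc) : Fc →* Fc) f : Fcˣ) : Fc) /
        ((Units.map ((c.sg a : Fc ≃ₐ[k[X]] Fc) : Fc →* Fc) f : Fcˣ) : Fc)) := by
      have h1 : D ((Units.map ((c.sg a : Fc ≃ₐ[k[X]] Fc) : Fc →* Fc) f : Fcˣ) : Fc) /
        ((Units.map ((c.sg a : Fc ≃ₐ[k[X]] Fc) : Fc →* Fc) f : Fcˣ) : Fc) =
          c.sg a (D (f : Fc) / f) := by
        rw [map_div₀, ← hDer.gal a _ ha]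
        rfl
      rw [h1]
      exact OP_map _ hf
    have hl1 : MM (c.sg a) Λ = Λ := by
      rw [hΛ, MM_prin]
      obtain ⟨-, -, hane, h4, h5⟩ := hLAU k Fc P c hPm hPi a ha
      have h6 : ((Units.map ((c.sg a : Fc ≃ₐ[k[X]] Fc) : Fc →* Fc) l : Fcˣ) : Fc) = c.lam a := by
        change c.sg a (l : Fc) = c.lam a
        rw [hlv, c.sg_lam a 1 ha, mul_one]
      rw [← mul_inv_eq_one, ← map_inv, ← map_mul]
      apply prin_one
      · rw [Units.val_mul, h6, Units.val_inv_eq_inv_val, hlv, ← div_eq_mul_inv]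
        exact h4
      · rw [Units.val_mul, h6, Units.val_inv_eq_inv_val, hlv, ← div_eq_mul_inv, inv_div]
        exact h5
    apply Subtype.ext
    rw [key _ hσf (MM (c.sg a) I) r (by
      rw [← MM_prin, hI, map_mul, map_pow, map_zpow, hl1])]
    change _ = clMap (c.sg a) (cl f : Cl k Fc)
    rw [key f hf I r hI, clMap_mk]

end Pool.Agent.W538.GK
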